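import Pool.Agent.H91.EL.Targets

/-!
# Row CAN of elm_modules (helper32): planks of a point in a small disc of directions
-/

set_option autoImplicit false

namespace Pool.Agent.H32.EL

open Pool.Agent.H83.G Pool.Agent.H91.EL
open scoped RealInnerProductSpace

/-- centres of the small discs -/
noncomputable def cen (η₀ : E 2) (ρ : ℝ) (k : ℤ × ℤ) : E 2 :=
  η₀ + !₂[(k.1 : ℝ) / (2 * ρ), (k.2 : ℝ) / (2 * ρ)]

theorem near {η₀ x : E 2} {ρ s : ℝ} (hρ : 1 ≤ ρ) (hx : ‖x - η₀‖ ≤ s) :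
    ∃ k : ℤ × ℤ, |(k.1 : ℝ)| ≤ 2 * (s * ρ) + 1 ∧ |(k.2 : ℝ)| ≤ 2 * (s * ρ) + 1 ∧
      ‖x - cen η₀ ρ k‖ ≤ ρ⁻¹ := by
  have h0 : (0 : ℝ) < ρ := by linarith
  obtain ⟨h, hh⟩ : ∃ h : E 2, h = x - η₀ := ⟨_, rfl⟩
  rw [← hh] at hx
  have hsq := EuclideanSpace.norm_sq_eq h
  rw [Fin.sum_univ_two, Real.norm_eq_abs, Real.norm_eq_abs, sq_abs, sq_abs] at hsq
  have hs0 : 0 ≤ s := (norm_nonneg h).trans hx
  have hle : ∀ i, |h i| ≤ s := by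
    intro i
    have h1 : h i ^ 2 ≤ ‖h‖ ^ 2 := by
      rw [hsq]
      fin_cases i
      · simp only [Fin.zero_eta, Fin.isValue]; nlinarith [sq_nonneg (h 1)]
      · simp only [Fin.mk_one, Fin.isValue]; nlinarith [sq_nonneg (h 0)]
    exact (abs_le_of_sq_le_sq h1 (norm_nonneg _)).trans hx
  have hfl : ∀ i, |((⌊2 * ρ * h i⌋ : ℤ) : ℝ)| ≤ 2 * (s * ρ) + 1 := by
    intro i
    have h1 := Int.floor_le (2 * ρ * h i)
    have h2 := Int.lt_floor_add_one (2 * ρ * h i)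
    have h3 := abs_le.1 (hle i)
    have h4 : 2 * ρ * h i ≤ 2 * (s * ρ) := by nlinarith [h3.2]
    have h5 : -(2 * (s * ρ)) ≤ 2 * ρ * h i := by nlinarith [h3.1]
    rw [abs_le]
    constructor <;> linarith
  have her : ∀ i, |h i - ((⌊2 * ρ * h i⌋ : ℤ) : ℝ) / (2 * ρ)| ≤ 1 / (2 * ρ) := by
    intro i
    have h1 := Int.floor_le (2 * ρ * h i)
    have h2 := Int.lt_floor_add_one (2 * ρ * h i)
    have h3 : h i - ((⌊2 * ρ * h i⌋ : ℤ) : ℝ) / (2 * ρ) =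
        (2 * ρ * h i - ((⌊2 * ρ * h i⌋ : ℤ) : ℝ)) / (2 * ρ) := by
      field_simp
    rw [h3, abs_div, abs_of_pos (by positivity : (0 : ℝ) < 2 * ρ)]
    refine div_le_div_of_nonneg_right ?_ (by positivity)
    rw [abs_of_nonneg (by linarith)]
    linarith
  refine ⟨(⌊2 * ρ * h 0⌋, ⌊2 * ρ * h 1⌋), hfl 0, hfl 1, ?_⟩
  have e1 : x - cen η₀ ρ (⌊2 * ρ * h 0⌋, ⌊2 * ρ * h 1⌋) =
      h - !₂[((⌊2 * ρ * h 0⌋ : ℤ) : ℝ) / (2 * ρ), ((⌊2 * ρ * h 1⌋ : ℤ) : ℝ) / (2 * ρ)] := by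
    rw [cen, hh]; abel
  rw [e1]
  have e2 := EuclideanSpace.norm_sq_eq
    (h - !₂[((⌊2 * ρ * h 0⌋ : ℤ) : ℝ) / (2 * ρ), ((⌊2 * ρ * h 1⌋ : ℤ) : ℝ) / (2 * ρ)])
  rw [Fin.sum_univ_two, Real.norm_eq_abs, Real.norm_eq_abs, sq_abs, sq_abs] at e2
  simp only [PiLp.sub_apply] at e2
  have e3 : (h 0 - ((⌊2 * ρ * h 0⌋ : ℤ) : ℝ) / (2 * ρ)) ^ 2 ≤ (1 / (2 * ρ)) ^ 2 := by
    rw [← sq_abs]
    exact pow_le_pow_left₀ (abs_nonneg _) (her 0) 2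
  have e4 : (h 1 - ((⌊2 * ρ * h 1⌋ : ℤ) : ℝ) / (2 * ρ)) ^ 2 ≤ (1 / (2 * ρ)) ^ 2 := by
    rw [← sq_abs]
    exact pow_le_pow_left₀ (abs_nonneg _) (her 1) 2
  refine abs_le_of_sq_le_sq' ?_ (by positivity) |>.2
  rw [e2]
  simp
  have e5 : (1 / (2 * ρ)) ^ 2 = (ρ ^ 2)⁻¹ / 4 := by
    field_simp; norm_num
  rw [e5] at e3 e4
  have e6 : 0 < (ρ ^ 2)⁻¹ := by positivity
  linarith

theorem pf_CAN : T_CAN := by
  classical
  refine ⟨81, by norm_num, ?_⟩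
  intro ι ρ D K X P η I hc z hz η₀ s hs
  have hD := hc.one_le_D
  have hρ : 1 ≤ ρ := hD.trans (hc.D_le_K.trans hc.K_le)
  have h0 : (0 : ℝ) < ρ := by linarith
  have hsρ : 1 ≤ s * ρ := by
    have := mul_le_mul_of_nonneg_right hs h0.le
    rwa [inv_mul_cancel₀ h0.ne'] at this
  obtain ⟨M, hM⟩ : ∃ M : ℕ, M = ⌈2 * (s * ρ) + 1⌉₊ := ⟨_, rfl⟩
  have hM1 : 2 * (s * ρ) + 1 ≤ M := by rw [hM]; exact Nat.le_ceil _
  have hM2 : (M : ℝ) ≤ 2 * (s * ρ) + 2 := by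
    rw [hM]
    have := Nat.ceil_lt_add_one (by positivity : 0 ≤ 2 * (s * ρ) + 1)
    linarith
  have hsub : PC P I η z η₀ s ⊆
      ((Finset.Icc (-(M : ℤ)) M) ×ˢ (Finset.Icc (-(M : ℤ)) M)).biUnion
        fun k => PC P I η z (cen η₀ ρ k) ρ⁻¹ := by
    intro p hp
    rw [PC, Finset.mem_filter] at hp
    obtain ⟨hp1, hp2, hp3⟩ := hp
    obtain ⟨k, hk1, hk2, hk3⟩ := near hρ hp3
    rw [Finset.mem_biUnion]
    refine ⟨k, ?_, ?_⟩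
    · have a1 := abs_le.1 (hk1.trans hM1)
      have a2 := abs_le.1 (hk2.trans hM1)
      rw [Finset.mem_product, Finset.mem_Icc, Finset.mem_Icc]
      exact ⟨⟨by exact_mod_cast a1.1, by exact_mod_cast a1.2⟩,
        ⟨by exact_mod_cast a2.1, by exact_mod_cast a2.2⟩⟩
    · rw [PC, Finset.mem_filter]
      exact ⟨hp1, hp2, hk3⟩
  have h1 : ((PC P I η z η₀ s).card : ℝ) ≤
      ∑ k ∈ (Finset.Icc (-(M : ℤ)) M) ×ˢ (Finset.Icc (-(M : ℤ)) M),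
        ((PC P I η z (cen η₀ ρ k) ρ⁻¹).card : ℝ) := by
    exact_mod_cast (Finset.card_le_card hsub).trans Finset.card_biUnion_le
  have h2 : ∑ k ∈ (Finset.Icc (-(M : ℤ)) M) ×ˢ (Finset.Icc (-(M : ℤ)) M),
        ((PC P I η z (cen η₀ ρ k) ρ⁻¹).card : ℝ) ≤ (2 * (M : ℝ) + 1) ^ 2 * D := by
    refine (Finset.sum_le_card_nsmul _ _ D fun k _ => hc.h1 z hz _).trans (le_of_eq ?_)
    rw [nsmul_eq_mul, Finset.card_product, Int.card_Icc]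
    have : ((M : ℤ) + 1 - -(M : ℤ)).toNat = 2 * M + 1 := by omega
    rw [this]
    push_cast
    ring
  refine (h1.trans h2).trans ?_
  have h3 : 2 * (M : ℝ) + 1 ≤ 9 * (s * ρ) := by linarith
  have h4 : (2 * (M : ℝ) + 1) ^ 2 ≤ (9 * (s * ρ)) ^ 2 := pow_le_pow_left₀ (by positivity) h3 2
  calc (2 * (M : ℝ) + 1) ^ 2 * D ≤ (9 * (s * ρ)) ^ 2 * D :=
        mul_le_mul_of_nonneg_right h4 (by linarith)
    _ = 81 * D * (s * ρ) ^ 2 := by ring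

end Pool.Agent.H32.EL
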