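import Pool.Agent.H91.EL.Targets

/-!
# Row PL1 of elm_modules (helper32): points on one plank
-/

set_option autoImplicit false

namespace Pool.Agent.H32.EL

open Pool.Agent.H83.G Pool.Agent.H91.EL
open scoped RealInnerProductSpace

/-- first component -/
noncomputable def F0 (η : E 2) : Z 2 →ₗ[ℝ] ℝ :=
  IsLinearMap.mk' (fun z => z.1 + ⟪z.2.1, η⟫ + z.2.2 * ‖η‖ ^ 2)
    { map_add := fun z z' => by
        simp only [Prod.fst_add, Prod.snd_add, inner_add_left]; ring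
      map_smul := fun c z => by
        simp only [Prod.smul_fst, Prod.smul_snd, inner_smul_left, smul_eq_mul]
        simp
        ring }

theorem F0_apply (η : E 2) (z : Z 2) : F0 η z = z.1 + ⟪z.2.1, η⟫ + z.2.2 * ‖η‖ ^ 2 := rfl

/-- middle components -/
noncomputable def F1 (η e : E 2) (μ : ℝ) : Z 2 →ₗ[ℝ] ℝ :=
  IsLinearMap.mk' (fun z => ⟪z.2.1 + (2 * z.2.2) • η, e⟫ + z.2.2 * μ)
    { map_add := fun z z' => by
        simp only [Prod.fst_add, Prod.snd_add, inner_add_left, inner_smul_left]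
        simp
        ring
      map_smul := fun c z => by
        simp only [Prod.smul_fst, Prod.smul_snd, inner_add_left, inner_smul_left, smul_eq_mul]
        simp
        ring }

theorem F1_apply (η e : E 2) (μ : ℝ) (z : Z 2) :
    F1 η e μ z = ⟪z.2.1 + (2 * z.2.2) • η, e⟫ + z.2.2 * μ := rfl

/-- last component -/
noncomputable def F3 : Z 2 →ₗ[ℝ] ℝ :=
  IsLinearMap.mk' (fun z => z.2.2)
    { map_add := fun _ _ => rfl
      map_smul := fun _ _ => rfl }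

theorem F3_apply (z : Z 2) : F3 z = z.2.2 := rfl

/-- the four forms determine the point -/
theorem lower {η e e' : E 2} {μ : ℝ} (hη : ‖η‖ ≤ 3) (hμ0 : 0 ≤ μ) (hμ : μ ≤ 6)
    (he : ∀ u : E 2, ‖u‖ ≤ |⟪u, e⟫| + |⟪u, e'⟫|) (z : Z 2) :
    ∃ i, ‖z‖ ≤ 1000 * |(![F0 η, F1 η e μ, F1 η e' 0, F3] : Fin 4 → Z 2 →ₗ[ℝ] ℝ) i z| := by
  by_contra hcon
  push Not at hcon
  have h0 := hcon 0
  have h1 := hcon 1
  have h2 := hcon 2
  have h3 := hcon 3
  simp only [Matrix.cons_val_zero, Matrix.cons_val_one, Matrix.cons_val] at h0 h1 h2 h3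
  rw [F0_apply] at h0
  rw [F1_apply] at h1 h2
  rw [F3_apply] at h3
  rw [mul_zero, add_zero] at h2
  set N := ‖z‖ with hN
  have hN0 : 0 ≤ N := norm_nonneg z
  have a3 : |z.2.2| ≤ N / 1000 := by linarith
  have a1 : |⟪z.2.1 + (2 * z.2.2) • η, e⟫| ≤ N / 1000 + 6 * (N / 1000) := by
    have e1 : ⟪z.2.1 + (2 * z.2.2) • η, e⟫ =
        (⟪z.2.1 + (2 * z.2.2) • η, e⟫ + z.2.2 * μ) + (-(z.2.2 * μ)) := by ring
    have e2 : |z.2.2 * μ| ≤ N / 1000 * 6 := by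
      rw [abs_mul, abs_of_nonneg hμ0]
      exact mul_le_mul a3 hμ hμ0 (by positivity)
    calc |⟪z.2.1 + (2 * z.2.2) • η, e⟫| = |(⟪z.2.1 + (2 * z.2.2) • η, e⟫ + z.2.2 * μ) +
          (-(z.2.2 * μ))| := by rw [← e1]
      _ ≤ |⟪z.2.1 + (2 * z.2.2) • η, e⟫ + z.2.2 * μ| + |-(z.2.2 * μ)| := abs_add_le _ _
      _ ≤ N / 1000 + 6 * (N / 1000) := by rw [abs_neg]; linarith
  have a2 : |⟪z.2.1 + (2 * z.2.2) • η, e'⟫| ≤ N / 1000 := by linarith
  have a4 : ‖z.2.1 + (2 * z.2.2) • η‖ ≤ 8 * (N / 1000) := (he _).trans (by linarith)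
  have a5 : ‖z.2.1‖ ≤ 14 * (N / 1000) := by
    have e1 : z.2.1 = (z.2.1 + (2 * z.2.2) • η) - (2 * z.2.2) • η := by abel
    have e2 : ‖(2 * z.2.2) • η‖ ≤ 2 * (N / 1000) * 3 := by
      rw [norm_smul, Real.norm_eq_abs, abs_mul, abs_two]
      exact mul_le_mul (by linarith) hη (norm_nonneg _) (by positivity)
    calc ‖z.2.1‖ = ‖(z.2.1 + (2 * z.2.2) • η) - (2 * z.2.2) • η‖ := by rw [← e1]
      _ ≤ ‖z.2.1 + (2 * z.2.2) • η‖ + ‖(2 * z.2.2) • η‖ := norm_sub_le _ _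
      _ ≤ _ := by linarith
  have a6 : |z.1| ≤ 52 * (N / 1000) := by
    have e1 : |⟪z.2.1, η⟫| ≤ 14 * (N / 1000) * 3 :=
      (abs_real_inner_le_norm _ _).trans (mul_le_mul a5 hη (norm_nonneg _) (by positivity))
    have e2 : |z.2.2 * ‖η‖ ^ 2| ≤ N / 1000 * 9 := by
      rw [abs_mul, abs_of_nonneg (sq_nonneg ‖η‖)]
      refine mul_le_mul a3 ?_ (sq_nonneg _) (by positivity)
      nlinarith [norm_nonneg η]
    have e3 : |z.1 + ⟪z.2.1, η⟫ + z.2.2 * ‖η‖ ^ 2| ≤ N / 1000 := by linarith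
    have f1 := abs_le.1 e1
    have f2 := abs_le.1 e2
    have f3 := abs_le.1 e3
    rw [abs_le]
    constructor <;> linarith [f1.1, f1.2, f2.1, f2.2, f3.1, f3.2]
  have a7 : N ≤ 52 * (N / 1000) := by
    have hmax : N = max ‖z.1‖ (max ‖z.2.1‖ ‖z.2.2‖) := by
      rw [hN, Prod.norm_def, Prod.norm_def]
    refine hmax.le.trans (max_le a6 (max_le ?_ ?_))
    · linarith
    · rw [Real.norm_eq_abs]; linarith
  have a8 : N = 0 := by linarith
  have : 0 ≤ |z.2.2| := abs_nonneg _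
  linarith

/-- orthonormal pair in the plane -/
theorem rot {e : E 2} (he : ‖e‖ = 1) : ∃ e' : E 2, ‖e'‖ = 1 ∧
    ∀ u : E 2, ‖u‖ ≤ |⟪u, e⟫| + |⟪u, e'⟫| := by
  have h1 : e 0 ^ 2 + e 1 ^ 2 = 1 := by
    have := EuclideanSpace.norm_sq_eq e
    rw [he, Fin.sum_univ_two, Real.norm_eq_abs, Real.norm_eq_abs, sq_abs, sq_abs] at this
    linarith
  refine ⟨!₂[-e 1, e 0], ?_, ?_⟩
  · have h2 := EuclideanSpace.norm_sq_eq (!₂[-e 1, e 0] : E 2)
    rw [Fin.sum_univ_two, Real.norm_eq_abs, Real.norm_eq_abs, sq_abs, sq_abs] at h2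
    simp at h2
    have h3 : ‖(!₂[-e 1, e 0] : E 2)‖ ^ 2 = 1 := by rw [h2]; linarith
    nlinarith [norm_nonneg (!₂[-e 1, e 0] : E 2)]
  · intro u
    have h2 := EuclideanSpace.norm_sq_eq u
    rw [Fin.sum_univ_two, Real.norm_eq_abs, Real.norm_eq_abs, sq_abs, sq_abs] at h2
    have h3 : ⟪u, e⟫ = u 0 * e 0 + u 1 * e 1 := by
      rw [PiLp.inner_apply, Fin.sum_univ_two]; simp; ring
    have h4 : ⟪u, (!₂[-e 1, e 0] : E 2)⟫ = -(u 0 * e 1) + u 1 * e 0 := by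
      rw [PiLp.inner_apply, Fin.sum_univ_two]; simp; ring
    rw [h4, h3]
    refine abs_le_of_sq_le_sq' ?_ (by positivity) |>.2
    have h5 : (|u 0 * e 0 + u 1 * e 1| + |-(u 0 * e 1) + u 1 * e 0|) ^ 2 =
        (u 0 * e 0 + u 1 * e 1) ^ 2 + (-(u 0 * e 1) + u 1 * e 0) ^ 2 +
        2 * (|u 0 * e 0 + u 1 * e 1| * |-(u 0 * e 1) + u 1 * e 0|) := by
      rw [add_sq, sq_abs, sq_abs]; ring
    rw [h5, h2]
    have h6 : (u 0 * e 0 + u 1 * e 1) ^ 2 + (-(u 0 * e 1) + u 1 * e 0) ^ 2 =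
        (u 0 ^ 2 + u 1 ^ 2) * (e 0 ^ 2 + e 1 ^ 2) := by ring
    rw [h6, h1]
    have : 0 ≤ |u 0 * e 0 + u 1 * e 1| * |-(u 0 * e 1) + u 1 * e 0| := by positivity
    linarith

/-- differences of the forms on a plank -/
theorem diff0 {η : E 2} {ρ D : ℝ} {z z' : Z 2} (h : ‖Lo η ρ⁻¹ (z - z')‖ ≤ D) :
    |F0 η z - F0 η z'| ≤ D := by
  have h1 : F0 η z - F0 η z' = (Lo η ρ⁻¹ (z - z')).1 := by
    rw [← map_sub]; rfl
  rw [h1]
  exact (norm_fst_le' _).trans h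

theorem diff1 {η e : E 2} {ρ D : ℝ} {z z' : Z 2} (hρ : 1 ≤ ρ) (he : ‖e‖ = 1)
    (h : ‖Lo η ρ⁻¹ (z - z')‖ ≤ D) : |F1 η e 0 z - F1 η e 0 z'| ≤ D * ρ := by
  have h0 : (0 : ℝ) < ρ := by linarith
  have h1 : F1 η e 0 z - F1 η e 0 z' = ⟪(z - z').2.1 + (2 * (z - z').2.2) • η, e⟫ := by
    rw [← map_sub, F1_apply, mul_zero, add_zero]
  have h2 : (Lo η ρ⁻¹ (z - z')).2.1 = ρ⁻¹ • ((z - z').2.1 + (2 * (z - z').2.2) • η) := rfl
  have h3 : ‖ρ⁻¹ • ((z - z').2.1 + (2 * (z - z').2.2) • η)‖ ≤ D := by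
    rw [← h2]; exact (norm_y_le _).trans h
  rw [norm_smul, Real.norm_eq_abs, abs_of_pos (inv_pos.2 h0), inv_mul_le_iff₀ h0] at h3
  rw [h1]
  refine (abs_real_inner_le_norm _ _).trans ?_
  rw [he, mul_one]
  linarith

theorem pf_PL1 (hBOX : T_BOX) : T_PL1 := by
  obtain ⟨C, hC, hbox⟩ := hBOX
  refine ⟨C, hC, ?_⟩
  intro ρ D L t η Y hρ hD hL hη hsep hY hw
  rcases Y.eq_empty_or_nonempty with rfl | ⟨z0, hz0⟩
  · simp only [Finset.card_empty, Nat.cast_zero]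
    positivity
  have he1 : ‖(EuclideanSpace.single 0 1 : E 2)‖ = 1 := by simp
  obtain ⟨e', he', hee⟩ := rot he1
  have h := hbox ![F0 η, F1 η (EuclideanSpace.single 0 1) 0, F1 η e' 0, F3]
    ![F0 η z0, F1 η (EuclideanSpace.single 0 1) 0 z0, F1 η e' 0 z0, t]
    ![D, D * ρ, D * ρ, L] Y (lower hη le_rfl (by norm_num) hee) hsep ?_ ?_
  · rw [Fin.prod_univ_four] at h
    simp only [Matrix.cons_val_zero, Matrix.cons_val_one, Matrix.cons_val] at h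
    refine h.trans (le_of_eq ?_)
    ring
  · have h1 : 1 ≤ D * ρ := by nlinarith
    intro i
    fin_cases i
    · exact hD
    · exact h1
    · exact h1
    · exact hL
  · intro z hz i
    fin_cases i
    · exact diff0 (hY z hz z0 hz0)
    · exact diff1 hρ he1 (hY z hz z0 hz0)
    · exact diff1 hρ he' (hY z hz z0 hz0)
    · exact hw z hz

end Pool.Agent.H32.EL
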