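import Pool.Agent.H32.EL.PL1

/-!
# Row PL2 of elm_modules (helper32): points on two transversal planks
-/

set_option autoImplicit false

namespace Pool.Agent.H32.EL

open Pool.Agent.H83.G Pool.Agent.H91.EL
open scoped RealInnerProductSpace

theorem mid_id {η η' e : E 2} {μ : ℝ} (hμ : η' - η = μ • e) (he : ‖e‖ = 1) (z : Z 2) :
    F0 η' z - F0 η z = μ * F1 η e μ z := by
  have h1 : η' = η + μ • e := by rw [← hμ]; abel
  rw [F0_apply, F0_apply, F1_apply, h1, norm_add_sq_real, inner_add_right, inner_smul_right,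
    inner_smul_right, norm_smul, he, inner_add_left, inner_smul_left]
  have h2 : (‖μ‖ * 1) ^ 2 = μ ^ 2 := by rw [mul_one, Real.norm_eq_abs, sq_abs]
  rw [h2]
  simp
  ring

theorem pf_PL2 (hBOX : T_BOX) : T_PL2 := by
  obtain ⟨C, hC, hbox⟩ := hBOX
  refine ⟨2 * C, by linarith, ?_⟩
  intro ρ D L t r η η' Y hρ hD hL hr hr1 hη hη' hsr hsep hY hY' hw
  rcases Y.eq_empty_or_nonempty with rfl | ⟨z0, hz0⟩
  · simp only [Finset.card_empty, Nat.cast_zero]
    positivity
  have hμr : r ≤ ‖η' - η‖ := by rw [norm_sub_rev]; exact hsr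
  have hμ0 : 0 < ‖η' - η‖ := hr.trans_le hμr
  have hμ6 : ‖η' - η‖ ≤ 6 := (norm_sub_le _ _).trans (by linarith)
  obtain ⟨μ, hμdef⟩ : ∃ μ, μ = ‖η' - η‖ := ⟨_, rfl⟩
  rw [← hμdef] at hμr hμ0 hμ6
  obtain ⟨e, hedef⟩ : ∃ e : E 2, e = μ⁻¹ • (η' - η) := ⟨_, rfl⟩
  have he : ‖e‖ = 1 := by
    rw [hedef, norm_smul, Real.norm_eq_abs, abs_of_pos (inv_pos.2 hμ0), ← hμdef,
      inv_mul_cancel₀ hμ0.ne']
  have hμe : η' - η = μ • e := by
    rw [hedef, smul_smul, mul_inv_cancel₀ hμ0.ne', one_smul]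
  obtain ⟨e', he', hee⟩ := rot he
  have hD0 : 0 < D := by linarith
  have h := hbox ![F0 η, F1 η e μ, F1 η e' 0, F3]
    ![F0 η z0, F1 η e μ z0, F1 η e' 0 z0, t]
    ![D, 2 * D / r, D * ρ, L] Y (lower hη hμ0.le hμ6 hee) hsep ?_ ?_
  · rw [Fin.prod_univ_four] at h
    simp only [Matrix.cons_val_zero, Matrix.cons_val_one, Matrix.cons_val] at h
    refine h.trans (le_of_eq ?_)
    field_simp
  · have h1 : 1 ≤ D * ρ := by nlinarith
    have h2 : 1 ≤ 2 * D / r := by
      rw [le_div_iff₀ hr]; linarith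
    intro i
    fin_cases i
    · exact hD
    · exact h2
    · exact h1
    · exact hL
  · intro z hz i
    fin_cases i
    · exact diff0 (hY z hz z0 hz0)
    · have h1 := diff0 (hY z hz z0 hz0)
      have h2 := diff0 (hY' z hz z0 hz0)
      have h3 : μ * (F1 η e μ z - F1 η e μ z0) = (F0 η' z - F0 η' z0) - (F0 η z - F0 η z0) := by
        have h4 := mid_id hμe he z
        have h5 := mid_id hμe he z0
        linarith
      have h4 : μ * |F1 η e μ z - F1 η e μ z0| ≤ 2 * D := by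
        rw [← abs_of_pos hμ0, ← abs_mul, abs_of_pos hμ0, h3]
        exact (abs_sub _ _).trans (by linarith)
      change |F1 η e μ z - F1 η e μ z0| ≤ 2 * D / r
      rw [le_div_iff₀ hr]
      have h5 : 0 ≤ |F1 η e μ z - F1 η e μ z0| := abs_nonneg _
      nlinarith
    · exact diff1 hρ he' (hY z hz z0 hz0)
    · exact hw z hz

end Pool.Agent.H32.EL
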